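import Mathlib

set_option autoImplicit false

namespace Pool.Agent.H.MP_9afe8f_co

open Finset

structure Rooted (V : Type) where
  r : V
  par : V → V
  dep : V → ℕ
  dep_r : dep r = 0
  dep_par : ∀ v, v ≠ r → dep (par v) + 1 = dep v

namespace Rooted

variable {V : Type} (R : Rooted V)

def step (a b : V) : Prop := a ≠ R.r ∧ R.par a = b

def U (x c : V) : Prop := Relation.ReflTransGen R.step x c

theorem U_dep {x c : V} (h : R.U x c) : R.dep c ≤ R.dep x := by
  induction h with
  | refl => exact le_rfl
  | tail _ h2 ih => have := R.dep_par _ h2.1; rw [h2.2] at this; omega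

theorem U_root (x : V) : R.U x R.r := by
  induction h : R.dep x using Nat.strong_induction_on generalizing x with
  | _ k ih =>
    by_cases hx : x = R.r
    · subst hx; exact Relation.ReflTransGen.refl
    · have := R.dep_par x hx
      exact Relation.ReflTransGen.head ⟨hx, rfl⟩ (ih (R.dep (R.par x)) (by omega) _ rfl)

theorem not_U_par {c : V} (hc : c ≠ R.r) : ¬ R.U (R.par c) c := fun h => by
  have := R.U_dep h; have := R.dep_par c hc; omega

theorem U_iff {x c : V} (hx : x ≠ R.r) (hc : c ≠ x) : R.U x c ↔ R.U (R.par x) c := by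
  constructor
  · intro h
    rcases Relation.ReflTransGen.cases_head h with h | ⟨y, h1, h2⟩
    · exact absurd h.symm hc
    · rw [h1.2]; exact h2
  · intro h; exact Relation.ReflTransGen.head ⟨hx, rfl⟩ h

theorem exists_rec {α : Type} (a0 : α) (F : V → α → α) :
    ∃ f : V → α, f R.r = a0 ∧ ∀ v, v ≠ R.r → f v = F v (f (R.par v)) := by
  classical
  let g : ℕ → V → α := fun k => Nat.rec (fun _ => a0) (fun _ ih v => F v (ih (R.par v))) k
  refine ⟨fun v => g (R.dep v) v, by simp [g, R.dep_r], fun v hv => ?_⟩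
  have := R.dep_par v hv
  show g (R.dep v) v = F v (g (R.dep (R.par v)) (R.par v))
  rw [← this]

open Classical in
theorem hall [Fintype V] [DecidableEq V] (T' : SimpleGraph V) (hT : T'.Preconnected)
    (A : Finset {c // c ≠ R.r}) :
    A.card ≤ (A.biUnion fun c => T'.edgeFinset.filter
      fun f => ∃ x y, f = s(x, y) ∧ R.U x c.1 ∧ ¬ R.U y c.1).card := by
  set B := A.biUnion fun c => T'.edgeFinset.filter
      fun f => ∃ x y, f = s(x, y) ∧ R.U x c.1 ∧ ¬ R.U y c.1 with hB
  let φ : V → (A → ℚ) := fun x c => if R.U x c.1.1 then 1 else 0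
  let g : Sym2 V → (A → ℚ) := fun f => φ f.out.1 - φ f.out.2
  let S : Submodule ℚ (A → ℚ) := Submodule.span ℚ ((B.image g : Finset (A → ℚ)) : Set (A → ℚ))
  have hg : ∀ x y, s(x, y) ∈ B → φ x - φ y ∈ S := by
    intro x y h
    have h1 : g s(x, y) ∈ S := Submodule.subset_span (by simp only [coe_image]; exact ⟨_, h, rfl⟩)
    have h2 : s((s(x, y)).out.1, (s(x, y)).out.2) = s(x, y) := Quot.out_eq _
    rcases Sym2.eq_iff.mp h2 with ⟨h3, h4⟩ | ⟨h3, h4⟩
    · simpa only [g, h3, h4] using h1
    · have := S.neg_mem h1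
      simpa only [g, h3, h4, neg_sub] using this
  have hadj : ∀ x y, T'.Adj x y → φ x - φ y ∈ S := by
    intro x y h
    by_cases he : φ x = φ y
    · rw [he, sub_self]; exact S.zero_mem
    · obtain ⟨c, hc⟩ := Function.ne_iff.mp he
      apply hg
      rw [hB, mem_biUnion]
      refine ⟨c.1, c.2, mem_filter.mpr ⟨by simpa using h, ?_⟩⟩
      by_cases h1 : R.U x c.1.1 <;> by_cases h2 : R.U y c.1.1
      · simp [φ, h1, h2] at hc
      · exact ⟨x, y, rfl, h1, h2⟩
      · exact ⟨y, x, Sym2.eq_swap, h2, h1⟩
      · simp [φ, h1, h2] at hc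
  have hall : ∀ x y, φ x - φ y ∈ S := by
    intro x y
    obtain ⟨w⟩ := hT x y
    induction w with
    | nil => rw [sub_self]; exact S.zero_mem
    | cons h _ ih => have := S.add_mem (hadj _ _ h) ih; simpa using this
  have htop : S = ⊤ := by
    rw [eq_top_iff, ← (Pi.basisFun ℚ A).span_eq, Submodule.span_le]
    rintro _ ⟨c, rfl⟩
    have : Pi.basisFun ℚ A c = φ c.1.1 - φ (R.par c.1.1) := by
      ext d
      by_cases hd : d = c
      · subst hd
        have h1 : R.U d.1.1 d.1.1 := Relation.ReflTransGen.refl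
        simp [φ, h1, R.not_U_par d.1.2]
      · have h1 : d.1.1 ≠ c.1.1 := fun h => hd (Subtype.ext (Subtype.ext h))
        simp [φ, R.U_iff c.1.2 h1, hd]
    rw [this]; exact hall _ _
  have h1 := finrank_span_finset_le_card (R := ℚ) (B.image g)
  unfold Set.finrank at h1
  have h2 : Module.finrank ℚ S = A.card := by rw [htop]; simp
  exact le_trans (h2 ▸ h1) card_image_le

open Classical in
theorem mst [Fintype V] [DecidableEq V] (T' : SimpleGraph V) (hT : T'.Preconnected)
    (d : Sym2 V → ℝ) (hd : ∀ f, 0 ≤ d f)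
    (h : ∀ c x y, c ≠ R.r → R.U x c → ¬ R.U y c → d s(c, R.par c) ≤ d s(x, y)) :
    ∑ c : {c // c ≠ R.r}, d s(c.1, R.par c.1) ≤ ∑ f ∈ T'.edgeFinset, d f := by
  obtain ⟨φ, hφ, hm⟩ := (Finset.all_card_le_biUnion_card_iff_exists_injective _).mp (R.hall T' hT)
  calc ∑ c : {c // c ≠ R.r}, d s(c.1, R.par c.1) ≤ ∑ c : {c // c ≠ R.r}, d (φ c) := by
        apply sum_le_sum
        intro c _
        obtain ⟨_, x, y, h1, h2, h3⟩ := mem_filter.mp (hm c)
        rw [h1]; exact h c.1 x y c.2 h2 h3
    _ = ∑ f ∈ univ.image φ, d f := by rw [sum_image (fun a _ b _ hab => hφ hab)]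
    _ ≤ _ := by
        apply sum_le_sum_of_subset_of_nonneg
        · intro f hf
          obtain ⟨c, _, rfl⟩ := mem_image.mp hf
          exact (mem_filter.mp (hm c)).1
        · intro f _ _; exact hd f

end Rooted

open Classical in
theorem exists_rooted {V : Type} [Fintype V] [DecidableEq V] (T : SimpleGraph V) (hT : T.IsTree)
    (hdeg : ∀ v, (T.neighborSet v).ncard ≤ 5) :
    ∃ R : Rooted V, (∀ p, (univ.filter fun v => v ≠ R.r ∧ R.par v = p).card ≤ 4) ∧
      ∀ d : Sym2 V → ℝ, ∑ f ∈ T.edgeFinset, d f = ∑ c : {c // c ≠ R.r}, d s(c.1, R.par c.1) := by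
  have hc := hT.connected
  have hdeg' : ∀ v, T.degree v ≤ 5 := fun v => by
    have := hdeg v
    rwa [Set.ncard_eq_toFinset_card', ← SimpleGraph.neighborFinset_def,
      SimpleGraph.card_neighborFinset_eq_degree] at this
  have hcard := hT.card_edgeFinset
  obtain ⟨r, hr⟩ : ∃ r, T.degree r ≤ 4 := by
    by_contra hcon
    push Not at hcon
    have h1 := T.sum_degrees_eq_twice_card_edges
    have h2 : ∑ _v : V, 5 ≤ ∑ v, T.degree v := sum_le_sum fun v _ => hcon v
    simp only [sum_const, card_univ, smul_eq_mul] at h2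
    omega
  have hp : ∀ v, ∃ u, v ≠ r → T.Adj v u ∧ T.dist r u + 1 = T.dist r v := by
    intro v
    by_cases hv : v = r
    · exact ⟨v, fun h => absurd hv h⟩
    obtain ⟨w, hw⟩ := hc.exists_walk_length_eq_dist v r
    cases w with
    | nil => exact absurd rfl hv
    | @cons _ u _ h q =>
      refine ⟨u, fun _ => ⟨h, ?_⟩⟩
      have h1 := T.dist_le q
      have h2 := hc.dist_triangle (u := v) (v := u) (w := r)
      have h3 : T.dist v u = 1 := SimpleGraph.dist_eq_one_iff_adj.mpr h
      rw [T.dist_comm (u := r) (v := u), T.dist_comm (u := r) (v := v)]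
      simp only [SimpleGraph.Walk.length_cons] at hw
      omega
  choose par hpar using hp
  refine ⟨⟨r, par, T.dist r, by simp, fun v hv => (hpar v hv).2⟩, fun p => ?_, fun d => ?_⟩
  · by_cases hp : p = r
    · refine le_trans (card_le_card (t := T.neighborFinset p) ?_) ?_
      · intro v hv
        obtain ⟨h1, h2⟩ := (mem_filter.mp hv).2
        have := (hpar v h1).1
        simp only at h2
        rw [h2] at this
        simpa using this.symm
      · rw [SimpleGraph.card_neighborFinset_eq_degree, hp]; exact hr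
    · refine le_trans (card_le_card (t := (T.neighborFinset p).erase (par p)) ?_) ?_
      · intro v hv
        obtain ⟨h1, h2⟩ := (mem_filter.mp hv).2
        have h3 := hpar v h1
        have h4 := (hpar p hp).2
        simp only at h2
        rw [h2] at h3
        refine mem_erase.mpr ⟨fun h => ?_, by simpa using h3.1.symm⟩
        rw [← h] at h4; omega
      · rw [card_erase_of_mem (by simpa using (hpar p hp).1),
          SimpleGraph.card_neighborFinset_eq_degree]
        have := hdeg' p; omega
  · have hinj : Function.Injective fun c : {c // c ≠ r} => s(c.1, par c.1) := by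
      intro a b hab
      rcases Sym2.eq_iff.mp hab with ⟨h, _⟩ | ⟨h1, h2⟩
      · exact Subtype.ext h
      · have h3 := (hpar a.1 a.2).2
        have h4 := (hpar b.1 b.2).2
        rw [h2] at h3; rw [← h1] at h4; omega
    have himg : univ.image (fun c : {c // c ≠ r} => s(c.1, par c.1)) = T.edgeFinset := by
      apply eq_of_subset_of_card_le
      · intro f hf
        obtain ⟨c, _, rfl⟩ := mem_image.mp hf
        simpa using (hpar c.1 c.2).1
      · rw [card_image_of_injective _ hinj, card_univ]
        simp only [ne_eq, Fintype.card_subtype_compl, Fintype.card_unique]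
        omega
    rw [← himg, sum_image (fun a _ b _ hab => hinj hab)]

end Pool.Agent.H.MP_9afe8f_co
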