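import Pool.Agent.H.MP_9afe8f_co.Slots
import Pool.Agent.H.MP_9afe8f_co.Mst

set_option autoImplicit false
set_option linter.unusedSectionVars false

namespace Pool.Agent.H.MP_9afe8f_co

open Finset

namespace Rooted

variable {V : Type} [Fintype V] [DecidableEq V] (R : Rooted V)

def big (j : ℕ) : Prop := 4 ≤ (univ.filter fun x => R.dep x = j).card

open Classical in
noncomputable def a : ℕ → ℕ
  | 0 => 0
  | j + 1 => a j + if R.big (j + 1) then 1 else 0

theorem count (d : ℕ) : ∀ c, R.dep c = d → d + 3 * R.a d + 1 ≤ (univ.filter fun x => R.dep x ≤ d).card := by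
  induction d with
  | zero =>
    intro c hc
    have : 0 < (univ.filter fun x => R.dep x ≤ 0).card := card_pos.mpr ⟨c, by simp [hc]⟩
    simp only [a]; omega
  | succ d ih =>
    intro c hc
    have hcr : c ≠ R.r := fun h => by rw [h, R.dep_r] at hc; omega
    have h1 := ih (R.par c) (by have := R.dep_par c hcr; omega)
    have h2 : (univ.filter fun x => R.dep x ≤ d + 1) =
        (univ.filter fun x => R.dep x ≤ d) ∪ (univ.filter fun x => R.dep x = d + 1) := by
      ext x; simp only [mem_filter, mem_univ, true_and, mem_union]; omega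
    have h3 : 0 < (univ.filter fun x => R.dep x = d + 1).card := card_pos.mpr ⟨c, by simp [hc]⟩
    rw [h2, card_union_of_disjoint (by
      rw [disjoint_left]; intro x h1 h2; simp only [mem_filter, mem_univ, true_and] at h1 h2; omega)]
    simp only [a]
    split_ifs with h
    · unfold big at h; omega
    · omega

noncomputable def rho (j : ℕ) : ℝ := (1 / 128) ^ (R.a j + 1)

theorem rho_pos (j : ℕ) : 0 < R.rho j := by unfold rho; positivity

theorem rho_le (j : ℕ) : R.rho j ≤ 1 / 128 := by
  unfold rho
  rw [pow_succ]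
  have : ((1 : ℝ) / 128) ^ R.a j ≤ 1 := pow_le_one₀ (by norm_num) (by norm_num)
  linarith

theorem rho_succ (j : ℕ) : R.rho (j + 1) ≤ R.rho j := by
  unfold rho
  apply pow_le_pow_of_le_one (by norm_num) (by norm_num)
  simp only [a]; omega

theorem mu_le (c : V) : ((1 : ℝ) / 2) ^ (7 * Fintype.card V ^ 2 / 12 + 8 * Fintype.card V) ≤
    (R.rho (R.dep c) / 2) ^ (R.dep c + 1) := by
  have h1 := R.count _ c rfl
  have h2 : (univ.filter fun x => R.dep x ≤ R.dep c).card ≤ Fintype.card V := card_le_univ _
  have h3 : R.rho (R.dep c) / 2 = (1 / 2) ^ (7 * R.a (R.dep c) + 8) := by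
    unfold rho
    rw [show ((1 : ℝ) / 128) = (1 / 2) ^ 7 by norm_num, ← pow_mul]; ring
  rw [h3, ← pow_mul]
  apply pow_le_pow_of_le_one (by norm_num) (by norm_num)
  generalize R.a (R.dep c) = a at *
  generalize R.dep c = d at *
  generalize Fintype.card V = n at *
  have h4 : d + 1 + 3 * a ≤ n := by omega
  have h5 : 7 * (a * (d + 1)) ≤ 7 * n ^ 2 / 12 := by
    rw [Nat.le_div_iff_mul_le (by norm_num)]
    have h6 : (d + 1 + 3 * a) ^ 2 ≤ n ^ 2 := Nat.pow_le_pow_left h4 2
    have h7 : 12 * (a * (d + 1)) ≤ (d + 1 + 3 * a) ^ 2 := by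
      zify; nlinarith [sq_nonneg ((d : ℤ) + 1 - 3 * a)]
    omega
  have : (7 * a + 8) * (d + 1) = 7 * (a * (d + 1)) + 8 * (d + 1) := by ring
  omega

theorem slots (hch : ∀ p, (univ.filter fun v => v ≠ R.r ∧ R.par v = p).card ≤ 4) :
    ∃ w : V → ℂ, (∀ v, v ≠ R.r → 1 / 2 ≤ ‖w v‖ ∧ ‖w v‖ ≤ 1 ∧
      1 + 3 * R.rho (R.dep (R.par v)) * R.rho (R.dep v) ≤ ‖1 + (R.rho (R.dep (R.par v)) : ℂ) * w v‖) ∧
      ∀ u v, u ≠ R.r → v ≠ R.r → u ≠ v → R.par u = R.par v →
        1 + 8 * R.rho (R.dep u) ≤ ‖w u - w v‖ := by
  classical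
  have h1 : ∀ j, ∃ W, Good (if R.big (j + 1) then 4 else 3) (R.rho j) (R.rho (j + 1)) W := by
    intro j
    by_cases h : R.big (j + 1)
    · have : R.rho (j + 1) = R.rho j / 128 := by
        unfold rho; simp only [a, h, if_true]; ring
      rw [this, if_pos h]; exact slot4 (R.rho_pos j) (R.rho_le j)
    · have : R.rho (j + 1) = R.rho j := by
        unfold rho; simp only [a, h, if_false, Nat.add_zero]
      rw [this, if_neg h]; exact slot3 (R.rho_pos j) (R.rho_le j)
  choose W hW using h1
  let C : V → Finset V := fun p => univ.filter fun v => v ≠ R.r ∧ R.par v = p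
  have hC : ∀ p, (C p).card ≤ if R.big (R.dep p + 1) then 4 else 3 := by
    intro p
    split_ifs with h
    · exact hch p
    · unfold big at h
      have : (C p).card ≤ (univ.filter fun x => R.dep x = R.dep p + 1).card := by
        apply card_le_card
        intro v hv
        obtain ⟨h1, h2⟩ := (mem_filter.mp hv).2
        have := R.dep_par v h1
        rw [h2] at this
        simp [this]
      omega
  have hm : ∀ v, v ≠ R.r → v ∈ C (R.par v) := fun v hv => by simp [C, hv]
  let idx : V → V → ℕ := fun p v => if h : v ∈ C p then ((C p).equivFin ⟨v, h⟩ : ℕ) else 0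
  have hlt : ∀ p v, v ∈ C p → idx p v < if R.big (R.dep p + 1) then 4 else 3 := by
    intro p v hv
    simp only [idx, hv, dite_true]
    exact lt_of_lt_of_le ((C p).equivFin ⟨v, hv⟩).2 (hC p)
  refine ⟨fun v => W (R.dep (R.par v)) (idx (R.par v) v), fun v hv => ?_, fun u v hu hv huv hp => ?_⟩
  · have := (hW (R.dep (R.par v))).1 _ (hlt _ v (hm v hv))
    rwa [R.dep_par v hv] at this
  · have hu' : u ∈ C (R.par v) := hp ▸ hm u hu
    have := (hW (R.dep (R.par v))).2 _ (hlt _ u hu') _ (hlt _ v (hm v hv)) (by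
      simp only [idx, hu', hm v hv, dite_true]
      intro h
      exact huv (congrArg Subtype.val ((C (R.par v)).equivFin.injective (Fin.ext h))))
    rw [← hp, R.dep_par u hu] at this
    simp only
    rw [← hp]; exact this

theorem geo (hch : ∀ p, (univ.filter fun v => v ≠ R.r ∧ R.par v = p).card ≤ 4) {μ : ℝ}
    (hμ : μ = ((1 : ℝ) / 2) ^ (7 * Fintype.card V ^ 2 / 12 + 8 * Fintype.card V)) :
    ∃ pos : V → ℂ, (∀ v, ‖pos v‖ ≤ 1 / 2) ∧ (∀ c, c ≠ R.r → μ ≤ ‖pos c - pos (R.par c)‖) ∧
      ∀ c x y, c ≠ R.r → R.U x c → ¬ R.U y c →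
        (x = c ∧ y = R.par c) ∨ ‖pos c - pos (R.par c)‖ + μ ≤ ‖pos x - pos y‖ := by
  obtain ⟨w, hw1, hw2⟩ := R.slots hch
  obtain ⟨e, he0, he⟩ := R.exists_rec (1 : ℂ) (fun v z => (R.rho (R.dep (R.par v)) : ℂ) * w v * z)
  obtain ⟨pos, hp0, hp⟩ := R.exists_rec (0 : ℂ) (fun v z => z + e v)
  have hn : ∀ v, v ≠ R.r → ‖e v‖ = R.rho (R.dep (R.par v)) * ‖w v‖ * ‖e (R.par v)‖ := by
    intro v hv
    rw [he v hv, norm_mul, norm_mul, Complex.norm_real, Real.norm_of_nonneg (R.rho_pos _).le]
  have hup : ∀ v, v ≠ R.r → ‖e v‖ ≤ R.rho (R.dep (R.par v)) * ‖e (R.par v)‖ := by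
    intro v hv
    rw [hn v hv, mul_assoc]
    apply mul_le_mul_of_nonneg_left _ (R.rho_pos _).le
    exact mul_le_of_le_one_left (norm_nonneg _) (hw1 v hv).2.1
  have hlow : ∀ d v, R.dep v = d → (R.rho d / 2) ^ d ≤ ‖e v‖ := by
    intro d
    induction d with
    | zero =>
      intro v hv
      have : v = R.r := by
        by_contra h; have := R.dep_par v h; omega
      rw [this, he0]; simp
    | succ d ih =>
      intro v hv
      have hvr : v ≠ R.r := fun h => by rw [h, R.dep_r] at hv; omega
      have hd : R.dep (R.par v) = d := by have := R.dep_par v hvr; omega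
      have h1 := ih _ hd
      have h2 := (hw1 v hvr).1
      have h3 := R.rho_succ d
      have h4 := R.rho_pos (d + 1)
      rw [hn v hvr, hd]
      calc (R.rho (d + 1) / 2) ^ (d + 1) ≤ (R.rho d / 2) ^ (d + 1) := by gcongr
        _ = R.rho d * (1 / 2) * (R.rho d / 2) ^ d := by ring
        _ ≤ _ := by have := R.rho_pos d; gcongr
  have hmar : ∀ v, v ≠ R.r → μ ≤ R.rho (R.dep (R.par v)) * R.rho (R.dep v) * ‖e (R.par v)‖ := by
    intro v hv
    have h1 := R.mu_le v
    have h2 := hlow _ (R.par v) rfl
    rw [← R.dep_par v hv] at h1 ⊢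
    generalize R.dep (R.par v) = d at *
    have h3 := R.rho_succ d
    have h4 := R.rho_pos (d + 1)
    rw [hμ]
    calc _ ≤ _ := h1
      _ = (R.rho (d + 1) / 2) * (R.rho (d + 1) / 2) * (R.rho (d + 1) / 2) ^ d := by ring
      _ ≤ R.rho d * R.rho (d + 1) * (R.rho d / 2) ^ d := by
        have := R.rho_pos d
        gcongr <;> linarith
      _ ≤ _ := by have := R.rho_pos d; gcongr
  have hrad : ∀ x v, R.U x v → ‖pos x - pos v‖ ≤ 2 * R.rho (R.dep v) * ‖e v‖ := by
    intro x v h
    induction h with
    | refl => have := R.rho_pos (R.dep x); simp only [sub_self, norm_zero]; positivity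
    | @tail c v _ h2 ih =>
      have h3 := hup c h2.1
      have h4 := hp c h2.1
      rw [h2.2] at h3 h4
      have h5 : pos x - pos v = (pos x - pos c) + e c := by rw [h4]; ring
      have h6 := norm_add_le (pos x - pos c) (e c)
      have h7 := R.rho_le (R.dep c)
      have h8 := norm_nonneg (e c)
      rw [h5]; nlinarith
  have hpe : ∀ c, c ≠ R.r → pos c - pos (R.par c) = e c := fun c hc => by rw [hp c hc]; ring
  refine ⟨pos, fun v => ?_, fun c hc => ?_, ?_⟩
  · have := hrad v _ (R.U_root v)
    rw [hp0, he0] at this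
    have h2 := R.rho_le (R.dep R.r)
    simp only [sub_zero, norm_one] at this
    linarith
  · rw [hpe c hc]
    have h1 := R.mu_le c
    have h2 := hlow _ c rfl
    have h3 := R.rho_le (R.dep c)
    have h4 := R.rho_pos (R.dep c)
    rw [hμ]
    refine le_trans h1 (le_trans (pow_le_pow_of_le_one (by linarith) (by linarith) (by omega)) h2)
  · intro c
    induction h : R.dep c using Nat.strong_induction_on generalizing c with
    | _ k ih =>
    intro x y hc hx hy
    rw [hpe c hc]
    have hdc := R.dep_par c hc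
    by_cases hz : R.U y (R.par c)
    · rcases Relation.ReflTransGen.cases_tail hz with hz | ⟨c2, h1, h2⟩
      · rcases Relation.ReflTransGen.cases_tail hx with hx | ⟨g, h1, h2⟩
        · left; exact ⟨hx.symm, hz.symm⟩
        · right
          have h3 := hrad x g h1
          have h4 := hup g h2.1
          have h5 := hmar g h2.1
          have h6 := (hw1 g h2.1).2.2
          have h7 := he g h2.1
          have h8 := hpe g h2.1
          rw [h2.2] at h4 h5 h6 h7 h8
          have h9 : (1 + (R.rho (R.dep c) : ℂ) * w g) * e c = (pos x - pos y) - (pos x - pos g) := by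
            rw [← hz]
            linear_combination (-1 : ℂ) * h7 - h8 - hpe c hc
          have h10 := norm_sub_le (pos x - pos y) (pos x - pos g)
          rw [← h9, norm_mul] at h10
          have h11 := R.rho_pos (R.dep g)
          have h12 := norm_nonneg (e c)
          have h13 := mul_le_mul_of_nonneg_right h6 h12
          have h14 := mul_le_mul_of_nonneg_left h4 h11.le
          nlinarith
      · right
        have hne : c ≠ c2 := fun h => hy (h ▸ h1)
        have h3 := hrad x c hx
        have h4 := hrad y c2 h1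
        have h5 := hup c hc
        have h6 := hup c2 h2.1
        have h7 := hmar c hc
        have h8 := hw2 c c2 hc h2.1 hne h2.2.symm
        have h9 := he c2 h2.1
        have h10 := hpe c2 h2.1
        have h11 := R.dep_par c2 h2.1
        rw [h2.2] at h6 h9 h10 h11
        have h12 : R.dep c2 = R.dep c := by omega
        rw [h12] at h4
        have h13 : (R.rho (R.dep (R.par c)) : ℂ) * (w c - w c2) * e (R.par c) =
            (pos x - pos y) - (pos x - pos c) + (pos y - pos c2) := by
          linear_combination (-1 : ℂ) * he c hc + h9 - hpe c hc + h10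
        have h14 := norm_add_le ((pos x - pos y) - (pos x - pos c)) (pos y - pos c2)
        have h15 := norm_sub_le (pos x - pos y) (pos x - pos c)
        rw [← h13, norm_mul, norm_mul, Complex.norm_real,
          Real.norm_of_nonneg (R.rho_pos _).le] at h14
        have h16 := R.rho_pos (R.dep c)
        have h17 := R.rho_pos (R.dep (R.par c))
        have h18 := norm_nonneg (e (R.par c))
        have h19 := mul_le_mul_of_nonneg_left h5 h16.le
        have h20 := mul_le_mul_of_nonneg_left h6 h16.le
        have h21 := mul_le_mul_of_nonneg_right (mul_le_mul_of_nonneg_left h8 h17.le) h18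
        have h22 : 0 ≤ R.rho (R.dep (R.par c)) * R.rho (R.dep c) * ‖e (R.par c)‖ := by positivity
        nlinarith
    · have hpr : R.par c ≠ R.r := fun h => hz (h ▸ R.U_root y)
      rcases ih (R.dep (R.par c)) (by omega) (R.par c) rfl x y hpr
        (Relation.ReflTransGen.tail hx ⟨hc, rfl⟩) hz with h1 | h1
      · have := R.U_dep hx; rw [h1.1] at this; omega
      · right
        rw [hpe _ hpr] at h1
        have h2 := hup c hc
        have h3 := R.rho_le (R.dep (R.par c))
        have h4 := norm_nonneg (e (R.par c))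
        nlinarith

end Rooted

end Pool.Agent.H.MP_9afe8f_co
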