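import Mathlib

set_option autoImplicit false

namespace Pool.Agent.H.MP_9afe8f_co

open Complex

theorem le_norm_of_sq {z : ℂ} {t : ℝ} (h : t ^ 2 ≤ z.re ^ 2 + z.im ^ 2) : t ≤ ‖z‖ := by
  have h1 : ‖z‖ ^ 2 = z.re ^ 2 + z.im ^ 2 := by
    rw [Complex.sq_norm, Complex.normSq_apply]; ring
  exact le_trans (le_abs_self t) (abs_le_of_sq_le_sq (by rw [h1]; exact h) (norm_nonneg z))

theorem norm_le_of_sq {z : ℂ} (h : z.re ^ 2 + z.im ^ 2 ≤ 1) : ‖z‖ ≤ 1 := by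
  have h1 : ‖z‖ ^ 2 = z.re ^ 2 + z.im ^ 2 := by
    rw [Complex.sq_norm, Complex.normSq_apply]; ring
  nlinarith [norm_nonneg z]

def Good (m : ℕ) (ρ ρ' : ℝ) (W : ℕ → ℂ) : Prop :=
  (∀ i < m, 1 / 2 ≤ ‖W i‖ ∧ ‖W i‖ ≤ 1 ∧ 1 + 3 * ρ * ρ' ≤ ‖1 + (ρ : ℂ) * W i‖) ∧
  (∀ i < m, ∀ j < m, i ≠ j → 1 + 8 * ρ' ≤ ‖W i - W j‖)

theorem good_of {m : ℕ} {ρ ρ' : ℝ} (x y : ℕ → ℝ)
    (h1 : ∀ i < m, 1 / 4 ≤ x i ^ 2 + y i ^ 2 ∧ x i ^ 2 + y i ^ 2 ≤ 1 ∧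
      (1 + 3 * ρ * ρ') ^ 2 ≤ (1 + ρ * x i) ^ 2 + (ρ * y i) ^ 2)
    (h2 : ∀ j < m, ∀ i < j, (1 + 8 * ρ') ^ 2 ≤ (x i - x j) ^ 2 + (y i - y j) ^ 2) :
    Good m ρ ρ' (fun i => ⟨x i, y i⟩) := by
  refine ⟨fun i hi => ⟨?_, ?_, ?_⟩, fun i hi j hj hij => ?_⟩
  · apply le_norm_of_sq; have := (h1 i hi).1; simp only; linarith
  · apply norm_le_of_sq; exact (h1 i hi).2.1
  · apply le_norm_of_sq; have := (h1 i hi).2.2; simpa using this
  · apply le_norm_of_sq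
    rcases lt_or_gt_of_ne hij with h | h
    · have := h2 j hj i h; simpa using this
    · have := h2 i hi j h; simp only [sub_re, sub_im]; nlinarith

theorem slot3 {ρ : ℝ} (h0 : 0 < ρ) (h1 : ρ ≤ 1 / 128) : ∃ W, Good 3 ρ ρ W := by
  refine ⟨_, good_of (fun i => if i = 0 then 1 else 1 / 4)
    (fun i => if i = 0 then 0 else if i = 1 then 15 / 16 else -15 / 16) ?_ ?_⟩
  · intro i hi
    have h2 : ρ * ρ ≤ ρ / 128 := by nlinarith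
    have h3 : ρ * ρ * (ρ * ρ) ≤ ρ / 128 := by nlinarith
    interval_cases i <;> refine ⟨?_, ?_, ?_⟩ <;> norm_num <;> nlinarith
  · intro j hj i hi
    have h2 : ρ * ρ ≤ ρ / 128 := by nlinarith
    interval_cases j <;> interval_cases i <;> simp only [] <;> norm_num <;> nlinarith

theorem slot4 {ρ : ℝ} (h0 : 0 < ρ) (h1 : ρ ≤ 1 / 128) : ∃ W, Good 4 ρ (ρ / 128) W := by
  obtain ⟨s, hs, hs1, hs2⟩ : ∃ s : ℝ, s ^ 2 = 3 / 4 ∧ 0.86 < s ∧ s < 0.87 := by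
    refine ⟨√(3 / 4), Real.sq_sqrt (by norm_num), ?_, ?_⟩
    · apply Real.lt_sqrt_of_sq_lt; norm_num
    · rw [Real.sqrt_lt' (by norm_num)]; norm_num
  obtain ⟨η, rfl⟩ : ∃ η, ρ = 4 * η := ⟨ρ / 4, by ring⟩
  have e0 : 0 < η := by linarith
  have e1 : η ≤ 1 / 512 := by linarith
  have e2 : η * η ≤ η / 512 := by nlinarith
  have e3 : 0 < η * η := by positivity
  have e4 : η * η * η ≤ η * η / 512 := by nlinarith
  have e5 : η * η * η * η ≤ η * η / 512 := by nlinarith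
  have e6 : 0 < η * η * η * η := by positivity
  have e7 : 0.86 * η ≤ s * η := by nlinarith
  have e8 : s * η ≤ 0.87 * η := by nlinarith
  refine ⟨_, good_of (fun i => if i = 0 ∨ i = 3 then -η else s - η / 8)
    (fun i => if i = 0 then 1 - η ^ 2 else if i = 1 then 1 / 2 + η / 8 else if i = 2 then
      -(1 / 2 + η / 8) else -(1 - η ^ 2)) ?_ ?_⟩
  · intro i hi
    have a1 : (1 + 3 * (4 * η) * (4 * η / 128)) ^ 2 ≤ (1 + 4 * η * -η) ^ 2 + (4 * η * (1 - η ^ 2)) ^ 2 := by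
      have : (4 * η * (1 - η ^ 2)) ^ 2 = 16 * (η * η) * (1 - η ^ 2) ^ 2 := by ring
      have h9 : 9 / 10 ≤ (1 - η ^ 2) ^ 2 := by nlinarith
      have : 16 * (η * η) * (9 / 10) ≤ (4 * η * (1 - η ^ 2)) ^ 2 := by rw [this]; gcongr
      nlinarith
    have a2 : (1 + 3 * (4 * η) * (4 * η / 128)) ^ 2 ≤ (1 + 4 * η * (s - η / 8)) ^ 2 := by
      apply pow_le_pow_left₀ (by positivity); nlinarith
    have a3 : 0 ≤ (4 * η * (1 / 2 + η / 8)) ^ 2 := by positivity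
    interval_cases i <;> simp only [] <;> norm_num <;> refine ⟨?_, ?_, ?_⟩ <;> nlinarith
  · intro j hj i hi
    interval_cases j <;> interval_cases i <;> simp only [] <;> norm_num <;> nlinarith

end Pool.Agent.H.MP_9afe8f_co
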